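import Mathlib

set_option autoImplicit false

/-! Point configurations, joins, duality. -/

namespace Pool.Agent.H9.SD

open Finset

section defs

variable {X Y W W' : Type} [AddCommGroup W] [Module ℝ W] [AddCommGroup W'] [Module ℝ W']

/-- The set of the vertices `x` for which `v x` lies in a given face of the convex hull of the
points `v x`; the empty face and the whole polytope are included. -/
def IsFace (v : X → W) (S : Set X) : Prop :=
  ∃ (l : W →ₗ[ℝ] ℝ) (c : ℝ), (∀ x, l (v x) ≤ c) ∧ S = {x | l (v x) = c}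

/-- `v` and `u` are dual: there are mutually inverse inclusion reversing maps between the faces. -/
def DualTo (v : X → W) (u : Y → W') : Prop :=
  ∃ (f : Set X → Set Y) (g : Set Y → Set X),
    (∀ S, IsFace v S → IsFace u (f S) ∧ g (f S) = S) ∧
    (∀ T, IsFace u T → IsFace v (g T) ∧ f (g T) = T) ∧
    (∀ S S', IsFace v S → IsFace v S' → S ⊆ S' → f S' ⊆ f S) ∧
    (∀ T T', IsFace u T → IsFace u T' → T ⊆ T' → g T' ⊆ g T)

/-- The faces of dimension at most `k` are simplices. -/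
def KSimp (v : X → W) (k : ℕ) : Prop :=
  ∀ S, IsFace v S → Module.finrank ℝ (vectorSpan ℝ (v '' S)) ≤ k →
    AffineIndependent ℝ (fun x : S => v x)

/-- The points `v x` are the vertices of a convex `d`-polytope in the `d`-dimensional space `W`: the
only linear functional that is constant on them is zero, and every `v x` is a vertex. -/
def IsPoly (v : X → W) (d : ℕ) : Prop :=
  Module.finrank ℝ W = d ∧ Module.Finite ℝ W ∧
    (∀ (l : W →ₗ[ℝ] ℝ) (c : ℝ), (∀ x, l (v x) = c) → l = 0) ∧ ∀ x, IsFace v {x}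

lemma isFace_empty (v : X → W) : IsFace v ∅ :=
  ⟨0, 1, by simp, by ext; simp⟩

lemma isFace_univ (v : X → W) : IsFace v Set.univ :=
  ⟨0, 0, by simp, by ext; simp⟩

/-- the join of two configurations -/
def join (v : X → W) (u : Y → W') : X ⊕ Y → W × W' × ℝ :=
  Sum.elim (fun x => (v x, 0, 0)) (fun y => (0, u y, 1))

lemma join_face (v : X → W) (u : Y → W') (S : Set (X ⊕ Y)) :
    IsFace (join v u) S ↔ IsFace v (Sum.inl ⁻¹' S) ∧ IsFace u (Sum.inr ⁻¹' S) := by
  constructor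
  · rintro ⟨l, c, h, rfl⟩
    refine ⟨⟨l.comp (LinearMap.inl ℝ W (W' × ℝ)), c, fun x => h (Sum.inl x), rfl⟩,
      ⟨l.comp ((LinearMap.inr ℝ W (W' × ℝ)).comp (LinearMap.inl ℝ W' ℝ)), c - l (0, 0, 1), ?_, ?_⟩⟩
    · intro y
      have h1 := h (Sum.inr y)
      have h2 : (join v u (Sum.inr y)) = (0, u y, 0) + ((0 : W), (0 : W'), (1 : ℝ)) := by
        simp [join]
      rw [h2, map_add] at h1
      show l (0, u y, 0) ≤ c - l (0, 0, 1)
      linarith
    · ext y
      have h2 : (join v u (Sum.inr y)) = (0, u y, 0) + ((0 : W), (0 : W'), (1 : ℝ)) := by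
        simp [join]
      show l (join v u (Sum.inr y)) = c ↔ l (0, u y, 0) = c - l (0, 0, 1)
      rw [h2, map_add]
      constructor <;> intro h <;> linarith
  · rintro ⟨⟨l1, c1, h1, e1⟩, ⟨l2, c2, h2, e2⟩⟩
    let l : W × W' × ℝ →ₗ[ℝ] ℝ := l1.comp (LinearMap.fst ℝ W (W' × ℝ)) +
      (l2.comp ((LinearMap.fst ℝ W' ℝ).comp (LinearMap.snd ℝ W (W' × ℝ))) +
      (c1 - c2) • ((LinearMap.snd ℝ W' ℝ).comp (LinearMap.snd ℝ W (W' × ℝ))))
    have hl : ∀ p, l p = l1 p.1 + (l2 p.2.1 + (c1 - c2) * p.2.2) := fun p => rfl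
    have hx : ∀ x, l (join v u (Sum.inl x)) = l1 (v x) := by
      intro x; rw [hl]; simp [join]
    have hy : ∀ y, l (join v u (Sum.inr y)) = l2 (u y) + (c1 - c2) := by
      intro y; rw [hl]; simp [join]
    refine ⟨l, c1, ?_, ?_⟩
    · rintro (x | y)
      · rw [hx]; exact h1 x
      · rw [hy]; have := h2 y; linarith
    · ext (x | y)
      · have : x ∈ Sum.inl ⁻¹' S ↔ l1 (v x) = c1 := by rw [e1]; rfl
        show Sum.inl x ∈ S ↔ l (join v u (Sum.inl x)) = c1
        rw [hx]; exact this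
      · have : y ∈ Sum.inr ⁻¹' S ↔ l2 (u y) = c2 := by rw [e2]; rfl
        show Sum.inr y ∈ S ↔ l (join v u (Sum.inr y)) = c1
        rw [hy]
        constructor
        · intro h; have := this.1 h; linarith
        · intro h; exact this.2 (by linarith)

/-- put two sets together -/
def glue (S : Set X) (T : Set Y) : Set (X ⊕ Y) := {z | Sum.elim (· ∈ S) (· ∈ T) z}

@[simp] lemma glue_inl (S : Set X) (T : Set Y) : Sum.inl ⁻¹' glue S T = S := rfl
@[simp] lemma glue_inr (S : Set X) (T : Set Y) : Sum.inr ⁻¹' glue S T = T := rfl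

lemma glue_eta (S : Set (X ⊕ Y)) : glue (Sum.inl ⁻¹' S) (Sum.inr ⁻¹' S) = S := by
  ext (x | y) <;> rfl

lemma glue_mono {S S' : Set X} {T T' : Set Y} (h : S ⊆ S') (h' : T ⊆ T') : glue S T ⊆ glue S' T' := by
  rintro (x | y) hz
  · exact h hz
  · exact h' hz

lemma join_poly {v : X → W} {u : Y → W'} {d e : ℕ} (hv : IsPoly v d) (hu : IsPoly u e)
    (hX : Nonempty X) (hY : Nonempty Y) : IsPoly (join v u) (d + e + 1) := by
  obtain ⟨a1, a2, a3, a4⟩ := hv
  obtain ⟨b1, b2, b3, b4⟩ := hu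
  refine ⟨?_, inferInstance, ?_, ?_⟩
  · rw [Module.finrank_prod, Module.finrank_prod, a1, b1, Module.finrank_self]; ring
  · intro l c h
    obtain ⟨x0⟩ := hX
    obtain ⟨y0⟩ := hY
    have e1 : l.comp (LinearMap.inl ℝ W (W' × ℝ)) = 0 := a3 _ c fun x => h (Sum.inl x)
    have h1 : ∀ x : W, l (x, 0, 0) = 0 := fun x => LinearMap.congr_fun e1 x
    have hc : c = 0 := by rw [← h (Sum.inl x0)]; exact h1 _
    have e2 : l.comp ((LinearMap.inr ℝ W (W' × ℝ)).comp (LinearMap.inl ℝ W' ℝ)) = 0 := by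
      refine b3 _ (c - l (0, 0, 1)) fun y => ?_
      have h2 : (join v u (Sum.inr y)) = (0, u y, 0) + ((0 : W), (0 : W'), (1 : ℝ)) := by
        simp [join]
      have h3 := h (Sum.inr y)
      rw [h2, map_add] at h3
      show l (0, u y, 0) = c - l (0, 0, 1)
      linarith
    have h2 : ∀ y : W', l (0, y, 0) = 0 := fun y => LinearMap.congr_fun e2 y
    have h3 : l (0, 0, 1) = 0 := by
      have h4 : (join v u (Sum.inr y0)) = (0, u y0, 0) + ((0 : W), (0 : W'), (1 : ℝ)) := by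
        simp [join]
      have h5 := h (Sum.inr y0)
      rw [h4, map_add, h2] at h5
      linarith
    ext p
    · exact h1 _
    · exact h2 _
    · simpa using h3
  · rintro (x | y)
    · rw [join_face]
      refine ⟨?_, ?_⟩
      · convert a4 x using 1
        ext z; simp
      · convert isFace_empty u using 1
        ext z; simp
    · rw [join_face]
      refine ⟨?_, ?_⟩
      · convert isFace_empty v using 1
        ext z; simp
      · convert b4 y using 1
        ext z; simp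

lemma join_selfdual {v : X → W} {u : Y → W'} (h : DualTo v u) : DualTo (join v u) (join v u) := by
  obtain ⟨f, g, h1, h2, h3, h4⟩ := h
  have key : ∀ S, IsFace (join v u) S →
      IsFace (join v u) (glue (g (Sum.inr ⁻¹' S)) (f (Sum.inl ⁻¹' S))) ∧
      glue (g (Sum.inr ⁻¹' (glue (g (Sum.inr ⁻¹' S)) (f (Sum.inl ⁻¹' S)))))
        (f (Sum.inl ⁻¹' (glue (g (Sum.inr ⁻¹' S)) (f (Sum.inl ⁻¹' S))))) = S := by
    intro S hS
    obtain ⟨a, b⟩ := (join_face v u S).1 hS
    refine ⟨(join_face v u _).2 ⟨(h2 _ b).1, (h1 _ a).1⟩, ?_⟩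
    rw [glue_inl, glue_inr, (h1 _ a).2, (h2 _ b).2, glue_eta]
  have mono : ∀ S S', IsFace (join v u) S → IsFace (join v u) S' → S ⊆ S' →
      glue (g (Sum.inr ⁻¹' S')) (f (Sum.inl ⁻¹' S')) ⊆ glue (g (Sum.inr ⁻¹' S)) (f (Sum.inl ⁻¹' S)) := by
    intro S S' hS hS' hSS
    obtain ⟨a, b⟩ := (join_face v u S).1 hS
    obtain ⟨a', b'⟩ := (join_face v u S').1 hS'
    exact glue_mono (h4 _ _ b b' (Set.preimage_mono hSS)) (h3 _ _ a a' (Set.preimage_mono hSS))
  exact ⟨fun S => glue (g (Sum.inr ⁻¹' S)) (f (Sum.inl ⁻¹' S)),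
    fun S => glue (g (Sum.inr ⁻¹' S)) (f (Sum.inl ⁻¹' S)), key, key, mono, mono⟩

lemma join_dual {v : X → W} {u : Y → W'} (h : DualTo v v) (h' : DualTo u u) :
    DualTo (join v u) (join v u) := by
  obtain ⟨f, g, h1, h2, h3, h4⟩ := h
  obtain ⟨f', g', h1', h2', h3', h4'⟩ := h'
  refine ⟨fun S => glue (f (Sum.inl ⁻¹' S)) (f' (Sum.inr ⁻¹' S)),
    fun S => glue (g (Sum.inl ⁻¹' S)) (g' (Sum.inr ⁻¹' S)), ?_, ?_, ?_, ?_⟩
  · intro S hS
    obtain ⟨a, b⟩ := (join_face v u S).1 hS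
    refine ⟨(join_face v u _).2 ⟨(h1 _ a).1, (h1' _ b).1⟩, ?_⟩
    show glue (g (Sum.inl ⁻¹' glue _ _)) (g' (Sum.inr ⁻¹' glue _ _)) = S
    rw [glue_inl, glue_inr, (h1 _ a).2, (h1' _ b).2, glue_eta]
  · intro S hS
    obtain ⟨a, b⟩ := (join_face v u S).1 hS
    refine ⟨(join_face v u _).2 ⟨(h2 _ a).1, (h2' _ b).1⟩, ?_⟩
    show glue (f (Sum.inl ⁻¹' glue _ _)) (f' (Sum.inr ⁻¹' glue _ _)) = S
    rw [glue_inl, glue_inr, (h2 _ a).2, (h2' _ b).2, glue_eta]
  · intro S S' hS hS' hSS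
    obtain ⟨a, b⟩ := (join_face v u S).1 hS
    obtain ⟨a', b'⟩ := (join_face v u S').1 hS'
    exact glue_mono (h3 _ _ a a' (Set.preimage_mono hSS)) (h3' _ _ b b' (Set.preimage_mono hSS))
  · intro S S' hS hS' hSS
    obtain ⟨a, b⟩ := (join_face v u S).1 hS
    obtain ⟨a', b'⟩ := (join_face v u S').1 hS'
    exact glue_mono (h4 _ _ a a' (Set.preimage_mono hSS)) (h4' _ _ b b' (Set.preimage_mono hSS))

end defs

end Pool.Agent.H9.SD
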