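import Mathlib
import Pool.Agent.H9.SD.Join

set_option autoImplicit false

namespace Pool.Agent.H9.SD

open Finset

variable {X Y : Type} {d : ℕ}

/-- the linear functional with given coefficients -/
noncomputable def fn (a : Fin d → ℝ) : (Fin d → ℝ) →ₗ[ℝ] ℝ := ∑ i, a i • LinearMap.proj i

lemma fn_apply (a z : Fin d → ℝ) : fn a z = ∑ i, a i * z i := by
  simp [fn]

lemma fn_comm (a z : Fin d → ℝ) : fn a z = fn z a := by
  rw [fn_apply, fn_apply]
  exact Finset.sum_congr rfl fun i _ => mul_comm _ _

lemma eq_fn (l : (Fin d → ℝ) →ₗ[ℝ] ℝ) : l = fn fun i => l (Pi.single i 1) := by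
  apply LinearMap.pi_ext'
  intro i
  ext
  simp [fn_apply, Pi.single_apply]

/-- Polarity: `u` is a set of facet functionals (normalised to right hand side `1`) of the convex hull
of `v`, and every functional is a nonnegative combination with the optimal value. -/
lemma polar [Fintype X] [Fintype Y] (v : X → Fin d → ℝ) (u : Y → Fin d → ℝ)
    (h1 : ∀ y x, fn (u y) (v x) ≤ 1)
    (h2 : ∀ a : Fin d → ℝ, ∃ c : Y → ℝ, (∀ y, 0 ≤ c y) ∧ ∑ y, c y • u y = a ∧
      ∃ x, fn a (v x) = ∑ y, c y)
    (h4 : ∀ z : Fin d → ℝ, z ≠ 0 → ∃ y, 0 < fn (u y) z)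
    (h5 : ∀ y, ∃ x, fn (u y) (v x) ≠ 1) (h6 : ∀ x, ∃ y, fn (u y) (v x) ≠ 1) :
    ∃ (f : Set X → Set Y) (g : Set Y → Set X),
    f = (fun S => {y | ∀ x ∈ S, fn (u y) (v x) = 1}) ∧
    (∀ S, IsFace v S → IsFace u (f S) ∧ g (f S) = S) ∧
    (∀ T, IsFace u T → IsFace v (g T) ∧ f (g T) = T) ∧
    (∀ S S', IsFace v S → IsFace v S' → S ⊆ S' → f S' ⊆ f S) ∧
    (∀ T T', IsFace u T → IsFace u T' → T ⊆ T' → g T' ⊆ g T) := by
  classical
  have fsum : ∀ (I : Type) (s : Finset I) (c : I → ℝ) (p : I → Fin d → ℝ) (z : Fin d → ℝ),
      fn (∑ i ∈ s, c i • p i) z = ∑ i ∈ s, c i * fn (p i) z := by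
    intro I s c p z
    rw [fn_comm, map_sum]
    refine Finset.sum_congr rfl fun i _ => ?_
    rw [map_smul, fn_comm, smul_eq_mul]
  -- the polar body is the convex hull
  have hconv : ∀ z : Fin d → ℝ, (∀ y, fn (u y) z ≤ 1) → z ∈ convexHull ℝ (Set.range v) := by
    intro z hz
    by_contra hcon
    have hclosed : IsClosed (convexHull ℝ (Set.range v)) :=
      (Set.Finite.isCompact_convexHull (𝕜 := ℝ) (Set.finite_range v)).isClosed
    obtain ⟨l, r, hl1, hl2⟩ := geometric_hahn_banach_closed_point (convex_convexHull ℝ _) hclosed hcon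
    set a : Fin d → ℝ := fun i => l (Pi.single i 1) with ha
    have hla : ∀ w, l w = fn a w := by
      intro w
      have := eq_fn (l : (Fin d → ℝ) →ₗ[ℝ] ℝ)
      have h := LinearMap.congr_fun this w
      exact h
    obtain ⟨c, hc0, hca, x, hx⟩ := h2 a
    have b1 := hl1 (v x) (subset_convexHull _ _ ⟨x, rfl⟩)
    rw [hla, hx] at b1
    rw [hla] at hl2
    have b2 : fn a z ≤ ∑ y, c y := by
      rw [← hca, fsum]
      refine Finset.sum_le_sum fun y _ => ?_
      have := mul_le_mul_of_nonneg_left (hz y) (hc0 y)
      linarith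
    linarith
  let f : Set X → Set Y := fun S => {y | ∀ x ∈ S, fn (u y) (v x) = 1}
  let g : Set Y → Set X := fun T => {x | ∀ y ∈ T, fn (u y) (v x) = 1}
  have fF : ∀ S, IsFace u (f S) := by
    intro S
    refine ⟨fn (∑ x ∈ univ.filter (· ∈ S), (1 : ℝ) • v x), (univ.filter (· ∈ S)).card, ?_, ?_⟩
    · intro y
      rw [fsum]
      have : ∑ x ∈ univ.filter (· ∈ S), (1 : ℝ) * fn (v x) (u y) ≤
          ∑ x ∈ univ.filter (· ∈ S), (1 : ℝ) := by
        refine Finset.sum_le_sum fun x _ => ?_
        rw [one_mul, fn_comm]; exact h1 y x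
      simpa using this
    · ext y
      show (∀ x ∈ S, fn (u y) (v x) = 1) ↔ fn _ (u y) = _
      rw [fsum]
      constructor
      · intro h
        rw [Finset.sum_congr rfl (g := fun _ => (1 : ℝ))]
        · simp
        · intro x hx
          rw [one_mul, fn_comm]
          exact h x (by simpa using hx)
      · intro h x hx
        have h0 : ∑ x ∈ univ.filter (· ∈ S), (1 - fn (u y) (v x)) = 0 := by
          rw [Finset.sum_sub_distrib]
          have h' : ∑ x ∈ univ.filter (· ∈ S), fn (u y) (v x) =
              ((univ.filter (· ∈ S)).card : ℝ) := by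
            rw [← h]
            exact Finset.sum_congr rfl fun x _ => by rw [one_mul, fn_comm]
          rw [h']; simp
        have := (Finset.sum_eq_zero_iff_of_nonneg (fun x _ => by have := h1 y x; linarith)).1 h0 x
          (by simpa using hx)
        linarith
  have gF : ∀ T, IsFace v (g T) := by
    intro T
    refine ⟨fn (∑ y ∈ univ.filter (· ∈ T), (1 : ℝ) • u y), (univ.filter (· ∈ T)).card, ?_, ?_⟩
    · intro x
      rw [fsum]
      have : ∑ y ∈ univ.filter (· ∈ T), (1 : ℝ) * fn (u y) (v x) ≤
          ∑ y ∈ univ.filter (· ∈ T), (1 : ℝ) := by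
        refine Finset.sum_le_sum fun y _ => ?_
        rw [one_mul]; exact h1 y x
      simpa using this
    · ext x
      show (∀ y ∈ T, fn (u y) (v x) = 1) ↔ fn _ (v x) = _
      rw [fsum]
      constructor
      · intro h
        rw [Finset.sum_congr rfl (g := fun _ => (1 : ℝ))]
        · simp
        · intro y hy
          rw [one_mul]
          exact h y (by simpa using hy)
      · intro h y hy
        have h0 : ∑ y ∈ univ.filter (· ∈ T), (1 - fn (u y) (v x)) = 0 := by
          rw [Finset.sum_sub_distrib]
          have h' : ∑ y ∈ univ.filter (· ∈ T), fn (u y) (v x) =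
              ((univ.filter (· ∈ T)).card : ℝ) := by
            rw [← h]
            exact Finset.sum_congr rfl fun x _ => by rw [one_mul]
          rw [h']; simp
        have := (Finset.sum_eq_zero_iff_of_nonneg (fun y _ => by have := h1 y x; linarith)).1 h0 y
          (by simpa using hy)
        linarith
  refine ⟨f, g, rfl, ?_, ?_, ?_, ?_⟩
  · rintro S ⟨l, c, hl, hS⟩
    refine ⟨fF S, Set.Subset.antisymm ?_ ?_⟩
    · intro x hx
      have hx' : ∀ y, (∀ x' ∈ S, fn (u y) (v x') = 1) → fn (u y) (v x) = 1 := hx
      by_cases hne : S.Nonempty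
      · obtain ⟨x0, hx0⟩ := hne
        have hx0' : l (v x0) = c := by rw [hS] at hx0; exact hx0
        set a : Fin d → ℝ := fun i => l (Pi.single i 1) with ha
        have hla : l = fn a := eq_fn l
        obtain ⟨cf, hc0, hca, x1, hx1⟩ := h2 a
        have hcle : ∀ x', fn a (v x') ≤ ∑ y, cf y := by
          intro x'
          rw [← hca, fsum]
          refine Finset.sum_le_sum fun y _ => ?_
          have := mul_le_mul_of_nonneg_left (h1 y x') (hc0 y)
          linarith
        have hceq : c = ∑ y, cf y := by
          apply le_antisymm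
          · rw [← hx0', hla]; exact hcle x0
          · rw [← hx1, ← hla]; exact hl x1
        have htight : ∀ x' ∈ S, ∀ y, cf y ≠ 0 → fn (u y) (v x') = 1 := by
          intro x' hx' y hy
          have e1 : l (v x') = c := by rw [hS] at hx'; exact hx'
          have e2 : ∑ y, cf y * (1 - fn (u y) (v x')) = 0 := by
            have e3 : ∑ y, cf y * fn (u y) (v x') = c := by
              rw [← e1, hla, ← hca, fsum]
            simp only [mul_sub, mul_one, Finset.sum_sub_distrib]
            rw [e3, hceq]; ring
          have e4 := (Finset.sum_eq_zero_iff_of_nonneg (fun y _ => mul_nonneg (hc0 y)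
            (by have := h1 y x'; linarith))).1 e2 y (by simp)
          rcases mul_eq_zero.1 e4 with h | h
          · exact absurd h hy
          · linarith
        rw [hS]
        show l (v x) = c
        rw [hla, ← hca, fsum, hceq]
        refine Finset.sum_congr rfl fun y _ => ?_
        by_cases hy : cf y = 0
        · simp [hy]
        · rw [hx' y (fun x' hx' => htight x' hx' y hy), mul_one]
      · exfalso
        obtain ⟨y, hy⟩ := h6 x
        rw [Set.not_nonempty_iff_eq_empty] at hne
        exact hy (hx' y (by rw [hne]; simp))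
    · intro x hx y hy
      exact hy x hx
  · rintro T ⟨l, c, hl, hT⟩
    refine ⟨gF T, Set.Subset.antisymm ?_ ?_⟩
    · intro y hy
      have hy' : ∀ x, (∀ y' ∈ T, fn (u y') (v x) = 1) → fn (u y) (v x) = 1 := hy
      by_cases hne : T.Nonempty
      · obtain ⟨y0, hy0⟩ := hne
        have hy0' : l (u y0) = c := by rw [hT] at hy0; exact hy0
        set z : Fin d → ℝ := fun i => l (Pi.single i 1) with hz
        have hlz : l = fn z := eq_fn l
        by_cases hz0 : z = 0
        · have hl0 : ∀ w, l w = 0 := by
            intro w; rw [hlz, hz0, fn_apply]; simp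
          rw [hT]
          show l (u y) = c
          rw [← hy0', hl0, hl0]
        · obtain ⟨y1, hy1⟩ := h4 z hz0
          have hcpos : 0 < c := by
            have := hl y1
            rw [hlz, fn_comm] at this
            linarith
          have hin : (c⁻¹ • z) ∈ convexHull ℝ (Set.range v) := by
            apply hconv
            intro y'
            rw [map_smul, smul_eq_mul, fn_comm, ← hlz]
            have := hl y'
            rw [inv_mul_le_iff₀ hcpos]
            linarith
          have hfin := Set.finite_range v
          have hin' : (c⁻¹ • z) ∈ convexHull ℝ (↑hfin.toFinset : Set (Fin d → ℝ)) := by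
            rw [Set.Finite.coe_toFinset]; exact hin
          rw [Finset.mem_convexHull'] at hin'
          obtain ⟨w, hw0, hw1, hwz⟩ := hin'
          have hmem : ∀ p ∈ hfin.toFinset, ∃ x, v x = p := by
            intro p hp; simpa using hp
          have hval : ∀ y', ∑ p ∈ hfin.toFinset, w p * fn (u y') p = c⁻¹ * l (u y') := by
            intro y'
            rw [hlz, fn_comm, ← smul_eq_mul (a := c⁻¹), ← map_smul, ← hwz, map_sum]
            exact Finset.sum_congr rfl fun p _ => by rw [map_smul, smul_eq_mul]
          have hle : ∀ y', ∀ p ∈ hfin.toFinset, fn (u y') p ≤ 1 := by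
            intro y' p hp
            obtain ⟨x, rfl⟩ := hmem p hp
            exact h1 y' x
          have htight : ∀ y' ∈ T, ∀ p ∈ hfin.toFinset, w p ≠ 0 → fn (u y') p = 1 := by
            intro y' hy'T p hp hwp
            have e1 : l (u y') = c := by rw [hT] at hy'T; exact hy'T
            have e2 : ∑ p ∈ hfin.toFinset, w p * (1 - fn (u y') p) = 0 := by
              simp only [mul_sub, mul_one, Finset.sum_sub_distrib]
              rw [hval y', hw1, e1, inv_mul_cancel₀ hcpos.ne']; ring
            have e4 := (Finset.sum_eq_zero_iff_of_nonneg (fun p hp => mul_nonneg (hw0 p hp)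
              (by have := hle y' p hp; linarith))).1 e2 p hp
            rcases mul_eq_zero.1 e4 with h | h
            · exact absurd h hwp
            · linarith
          have e5 : ∑ p ∈ hfin.toFinset, w p * fn (u y) p = 1 := by
            rw [← hw1]
            refine Finset.sum_congr rfl fun p hp => ?_
            by_cases hwp : w p = 0
            · simp [hwp]
            · obtain ⟨x, rfl⟩ := hmem p hp
              rw [hy' x (fun y' hy'T => htight y' hy'T _ hp hwp), mul_one]
          rw [hval y] at e5
          rw [hT]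
          show l (u y) = c
          field_simp at e5
          linarith
      · exfalso
        obtain ⟨x, hx⟩ := h5 y
        rw [Set.not_nonempty_iff_eq_empty] at hne
        exact hx (hy' x (by rw [hne]; simp))
    · intro y hy x hx
      exact hx y hy
  · intro S S' _ _ h y hy x hx
    exact hy x (h hx)
  · intro T T' _ _ h x hx y hy
    exact hx y (h hy)

end Pool.Agent.H9.SD
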