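import Mathlib
import Pool.Agent.H9.SD.Join

set_option autoImplicit false

namespace Pool.Agent.H9.SD

open Finset

variable {X Y W W' : Type} [AddCommGroup W] [Module ℝ W] [AddCommGroup W'] [Module ℝ W']

lemma sum_sub {X M : Type} [Fintype X] [AddCommMonoid M] (S : Set X) [Fintype S] (F : X → M)
    (hF : ∀ x, x ∉ S → F x = 0) : ∑ x : S, F x = ∑ x, F x := by
  classical
  have h : ∑ x ∈ univ.filter (· ∈ S), F x = ∑ x : S, F x := Finset.sum_subtype _ (by simp) F
  have h2 : ∑ x ∈ univ.filter (· ∈ S), F x = ∑ x, F x :=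
    Finset.sum_filter_of_ne (fun x _ hx => by by_contra h; exact hx (hF x h))
  rw [← h2, h]

/-- affine independence in terms of functions on the index type -/
lemma ai_of [Fintype X] (v : X → W) (S : Set X)
    (h : ∀ g : X → ℝ, (∀ x, x ∉ S → g x = 0) → ∑ x, g x = 0 → ∑ x, g x • v x = 0 → ∀ x, g x = 0) :
    AffineIndependent ℝ (fun x : S => v x) := by
  classical
  rw [affineIndependent_iff]
  intro s w h0 h1 e he
  let g : X → ℝ := fun x => if hx : x ∈ S then (if (⟨x, hx⟩ : S) ∈ s then w ⟨x, hx⟩ else 0) else 0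
  have hgS : ∀ e : S, g e = if e ∈ s then w e else 0 := by
    intro e
    show (if hx : (e : X) ∈ S then (if (⟨e, hx⟩ : S) ∈ s then w ⟨e, hx⟩ else 0) else 0) = _
    rw [dif_pos e.2]
  have hg0 : ∀ x, x ∉ S → g x = 0 := by
    intro x hx
    show (if hx : x ∈ S then (if (⟨x, hx⟩ : S) ∈ s then w ⟨x, hx⟩ else 0) else 0) = _
    rw [dif_neg hx]
  have a1 : ∑ x, g x = 0 := by
    rw [← sum_sub S g hg0, Finset.sum_congr rfl (fun e _ => hgS e)]
    refine Eq.trans ?_ h0
    simp
  have a2 : ∑ x, g x • v x = 0 := by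
    rw [← sum_sub S (fun x => g x • v x) (fun x hx => by simp [hg0 x hx]),
      Finset.sum_congr rfl (fun e _ => by rw [hgS e])]
    refine Eq.trans ?_ h1
    simp [ite_smul]
  have := h g hg0 a1 a2 e
  rw [hgS, if_pos he] at this
  exact this

lemma ai_fun {ι : Type} [Fintype ι] (p : ι → W)
    (h : ∀ g : ι → ℝ, ∑ i, g i = 0 → ∑ i, g i • p i = 0 → ∀ i, g i = 0) :
    AffineIndependent ℝ p := by
  classical
  rw [affineIndependent_iff]
  intro s w h0 h1 e he
  have a1 : ∑ i, (if i ∈ s then w i else 0) = 0 := by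
    refine Eq.trans ?_ h0
    simp
  have a2 : ∑ i, (if i ∈ s then w i else 0) • p i = 0 := by
    refine Eq.trans ?_ h1
    simp [ite_smul]
  have := h _ a1 a2 e
  rwa [if_pos he] at this

lemma ai_range {ι : Type} {v : X → W} (e : ι → X) (he : Function.Injective e)
    (h : AffineIndependent ℝ (v ∘ e)) {S : Set X} (hS : S ⊆ Set.range e) :
    AffineIndependent ℝ (fun x : S => v x) := by
  have h2 : AffineIndependent ℝ (fun x : Set.range e => v x) := by
    rw [← affineIndependent_equiv (Equiv.ofInjective e he)]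
    exact h
  exact h2.comp_embedding (Set.embeddingOfSubset S (Set.range e) hS)

lemma finrank_ge {ι : Type} [Fintype ι] [Module.Finite ℝ W] {v : X → W} (e : ι → X)
    (h : AffineIndependent ℝ (v ∘ e)) {S : Set X} (hS : Set.range e ⊆ S) :
    Fintype.card ι ≤ Module.finrank ℝ (vectorSpan ℝ (v '' S)) + 1 := by
  refine le_trans h.card_le_finrank_succ ?_
  gcongr
  refine Submodule.finrank_mono (vectorSpan_mono ℝ ?_)
  rintro _ ⟨i, rfl⟩
  exact ⟨e i, hS ⟨i, rfl⟩, rfl⟩

lemma of_ai [Fintype X] {v : X → W} {S : Set X} (h : AffineIndependent ℝ (fun x : S => v x))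
    (g : X → ℝ) (hg : ∀ x, x ∉ S → g x = 0) (h0 : ∑ x, g x = 0) (h1 : ∑ x, g x • v x = 0) :
    ∀ x, g x = 0 := by
  classical
  rw [affineIndependent_iff] at h
  intro x
  by_cases hx : x ∈ S
  · refine h univ (fun e => g e) ?_ ?_ ⟨x, hx⟩ (by simp)
    · rw [← h0]; exact sum_sub S g hg
    · rw [← h1]; exact sum_sub S (fun x => g x • v x) (fun x hx => by simp [hg x hx])
  · exact hg x hx

lemma ai_mono {v : X → W} {S S' : Set X} (h : AffineIndependent ℝ (fun x : S' => v x))
    (hS : S ⊆ S') : AffineIndependent ℝ (fun x : S => v x) :=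
  h.comp_embedding (Set.embeddingOfSubset S S' hS)

lemma join_ksimp [Fintype X] [Fintype Y] [Module.Finite ℝ W] [Module.Finite ℝ W'] {v : X → W}
    {u : Y → W'} {k : ℕ} (hv : KSimp v k) (hu : KSimp u k) : KSimp (join v u) k := by
  classical
  intro S hS hk
  obtain ⟨a, b⟩ := (join_face v u S).1 hS
  have r1 : Module.finrank ℝ (vectorSpan ℝ (v '' (Sum.inl ⁻¹' S))) ≤ k := by
    refine le_trans ?_ hk
    refine le_trans (Submodule.finrank_mono (t := (vectorSpan ℝ (join v u '' S)).map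
      (LinearMap.fst ℝ W (W' × ℝ))) ?_) (Submodule.finrank_map_le _ _)
    rw [vectorSpan_def, Submodule.span_le]
    rintro _ ⟨_, ⟨x, hx, rfl⟩, _, ⟨x', hx', rfl⟩, rfl⟩
    refine ⟨join v u (Sum.inl x) - join v u (Sum.inl x'), ?_, ?_⟩
    · exact vsub_mem_vectorSpan ℝ ⟨Sum.inl x, hx, rfl⟩ ⟨Sum.inl x', hx', rfl⟩
    · simp [join]
  have r2 : Module.finrank ℝ (vectorSpan ℝ (u '' (Sum.inr ⁻¹' S))) ≤ k := by
    refine le_trans ?_ hk
    refine le_trans (Submodule.finrank_mono (t := (vectorSpan ℝ (join v u '' S)).map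
      ((LinearMap.fst ℝ W' ℝ).comp (LinearMap.snd ℝ W (W' × ℝ)))) ?_) (Submodule.finrank_map_le _ _)
    rw [vectorSpan_def, Submodule.span_le]
    rintro _ ⟨_, ⟨x, hx, rfl⟩, _, ⟨x', hx', rfl⟩, rfl⟩
    refine ⟨join v u (Sum.inr x) - join v u (Sum.inr x'), ?_, ?_⟩
    · exact vsub_mem_vectorSpan ℝ ⟨Sum.inr x, hx, rfl⟩ ⟨Sum.inr x', hx', rfl⟩
    · simp [join]
  have A1 := hv _ a r1
  have A2 := hu _ b r2
  refine ai_of _ _ fun g hg h0 h1 => ?_
  rw [Fintype.sum_sum_type] at h0 h1
  have e1 := congrArg Prod.fst h1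
  have e2 := congrArg (fun p => p.2.1) h1
  have e3 := congrArg (fun p => p.2.2) h1
  simp only [join, Sum.elim_inl, Sum.elim_inr, Prod.fst_add, Prod.snd_add, Prod.fst_sum,
    Prod.snd_sum, Prod.smul_fst, Prod.smul_snd, smul_zero, Finset.sum_const_zero, add_zero,
    zero_add, smul_eq_mul, mul_one, mul_zero, Prod.fst_zero, Prod.snd_zero] at e1 e2 e3
  have e4 : ∑ x, g (Sum.inl x) = 0 := by linarith
  have f1 := of_ai A1 (fun x => g (Sum.inl x)) (fun x hx => hg _ hx) e4 e1
  have f2 := of_ai A2 (fun y => g (Sum.inr y)) (fun y hy => hg _ hy) e3 e2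
  rintro (x | y)
  · exact f1 x
  · exact f2 y

/-- the zero-dimensional polytope -/
def pt : Unit → (Fin 0 → ℝ) := fun _ => 0

lemma pt_poly : IsPoly pt 0 := by
  refine ⟨by simp, inferInstance, fun l c _ => ?_, fun x => ?_⟩
  · ext i
    exact i.elim0
  · convert isFace_univ pt using 1
    ext y
    simp

lemma pt_dual : DualTo pt pt := by
  have key : ∀ S : Set Unit, IsFace pt S := by
    intro S
    by_cases h : () ∈ S
    · have : S = Set.univ := by ext ⟨⟩; simp [h]
      rw [this]; exact isFace_univ _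
    · have : S = ∅ := by ext ⟨⟩; simp [h]
      rw [this]; exact isFace_empty _
  exact ⟨fun S => Sᶜ, fun S => Sᶜ, fun S _ => ⟨key _, compl_compl S⟩, fun S _ => ⟨key _, compl_compl S⟩,
    fun S S' _ _ h => Set.compl_subset_compl.2 h, fun S S' _ _ h => Set.compl_subset_compl.2 h⟩

lemma pt_ksimp (k : ℕ) : KSimp pt k := by
  intro S _ _
  exact affineIndependent_of_subsingleton ℝ _

/-- There is a self-dual `k`-simplicial `d`-polytope with more than `d + 1` vertices. -/
def Good (k d : ℕ) : Prop :=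
  ∃ (X W : Type) (_ : Fintype X) (_ : AddCommGroup W) (_ : Module ℝ W) (v : X → W),
    IsPoly v d ∧ DualTo v v ∧ KSimp v k ∧ d + 1 < Fintype.card X

lemma good_succ {k d : ℕ} (h : Good k d) : Good k (d + 1) := by
  obtain ⟨X, W, i1, i2, i3, v, a, b, c, e⟩ := h
  haveI : Module.Finite ℝ W := a.2.1
  haveI : Nonempty X := Fintype.card_pos_iff.1 (by omega)
  refine ⟨X ⊕ Unit, W × (Fin 0 → ℝ) × ℝ, inferInstance, inferInstance, inferInstance, join v pt,
    join_poly a pt_poly inferInstance inferInstance, join_dual b pt_dual,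
    join_ksimp c (pt_ksimp k), ?_⟩
  simp
  omega

end Pool.Agent.H9.SD
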