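import Mathlib
import Pool.Agent.H9.DC.Comb
import Pool.Agent.H9.SD.Simp
import Pool.Agent.H9.SD.Polar

set_option autoImplicit false

namespace Pool.Agent.H9.SD

open Finset Pool.Agent.H9.DC
open scoped symmDiff

variable {d : ℕ}

/-- sign vectors -/
noncomputable def sv (B : Finset (Fin d)) : Fin d → ℝ := fun i => if i ∈ B then -1 else 1

lemma sv_sq (A : Finset (Fin d)) (i : Fin d) : sv A i * sv A i = 1 := by
  unfold sv; split_ifs <;> norm_num

lemma sv_symm (A D : Finset (Fin d)) (i : Fin d) :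
    sv (A ∆ D) i = sv A i * (if i ∈ D then -1 else 1) := by
  unfold sv
  by_cases h1 : i ∈ A <;> by_cases h2 : i ∈ D <;> simp [Finset.mem_symmDiff, h1, h2]

lemma sv_ne (A : Finset (Fin d)) (i : Fin d) : sv A i ≠ 0 := by
  unfold sv; split_ifs <;> norm_num

/-- vertices of the half cube -/
abbrev XX (d : ℕ) := {B : Finset (Fin d) // Even B.card}

/-- the half cube -/
noncomputable def hv : XX d → Fin d → ℝ := fun B => sv B.1

/-- facets of the half cube -/
abbrev YY (d : ℕ) := (Fin d × Bool) ⊕ {A : Finset (Fin d) // Odd A.card}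

/-- the polar of the half cube -/
noncomputable def hu : YY d → Fin d → ℝ :=
  Sum.elim (fun p => Pi.single p.1 (if p.2 then 1 else -1)) (fun A => fun i => ((d : ℝ) - 2)⁻¹ * sv A.1 i)

lemma fn_sv (a : Fin d → ℝ) (B : Finset (Fin d)) : fn a (sv B) = ∑ i, a i - 2 * ∑ i ∈ B, a i := by
  classical
  rw [fn_apply, Finset.mul_sum]
  have : ∑ i ∈ B, 2 * a i = ∑ i, (if i ∈ B then 2 * a i else 0) := by simp
  rw [this, ← Finset.sum_sub_distrib]
  refine Finset.sum_congr rfl fun i _ => ?_
  unfold sv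
  by_cases h : i ∈ B <;> simp [h]
  ring

lemma sv_sv (A B : Finset (Fin d)) : fn (sv A) (sv B) = d - 2 * (A ∆ B).card := by
  classical
  rw [fn_apply]
  have h : ∀ i, sv A i * sv B i = 1 - 2 * (if i ∈ A ∆ B then 1 else 0) := by
    intro i
    unfold sv
    by_cases h1 : i ∈ A <;> by_cases h2 : i ∈ B <;> simp [Finset.mem_symmDiff, h1, h2] <;> norm_num
  rw [Finset.sum_congr rfl fun i _ => h i, Finset.sum_sub_distrib, ← Finset.mul_sum]
  simp

lemma pair_inl (i : Fin d) (b : Bool) (z : Fin d → ℝ) :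
    fn (hu (Sum.inl (i, b))) z = (if b then 1 else -1) * z i := by
  rw [fn_apply]
  simp [hu, Pi.single_apply]

lemma pair_inr (A : {A : Finset (Fin d) // Odd A.card}) (z : Fin d → ℝ) :
    fn (hu (Sum.inr A)) z = ((d : ℝ) - 2)⁻¹ * fn (sv A.1) z := by
  rw [fn_apply, fn_apply, Finset.mul_sum]
  refine Finset.sum_congr rfl fun i _ => ?_
  simp only [hu, Sum.elim_inr]
  ring

lemma tight_inl (i : Fin d) (b : Bool) (B : XX d) :
    fn (hu (Sum.inl (i, b))) (hv B) = 1 ↔ (b = true ↔ i ∉ B.1) := by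
  rw [pair_inl]
  show _ * sv B.1 i = 1 ↔ _
  unfold sv
  by_cases h1 : i ∈ B.1 <;> cases b <;> simp [h1] <;> norm_num

lemma tight_inr (hd : 3 ≤ d) (A : {A : Finset (Fin d) // Odd A.card}) (B : XX d) :
    fn (hu (Sum.inr A)) (hv B) = 1 ↔ (A.1 ∆ B.1).card = 1 := by
  rw [pair_inr]
  show _ * fn (sv A.1) (sv B.1) = 1 ↔ _
  rw [sv_sv]
  have hd' : (0 : ℝ) < (d : ℝ) - 2 := by
    have : (3 : ℝ) ≤ d := by exact_mod_cast hd
    linarith
  rw [inv_mul_eq_one₀ hd'.ne']
  constructor
  · intro h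
    have : ((A.1 ∆ B.1).card : ℝ) = 1 := by linarith
    exact_mod_cast this
  · intro h
    rw [h]; push_cast; ring

lemma le_one (hd : 3 ≤ d) (y : YY d) (x : XX d) : fn (hu y) (hv x) ≤ 1 := by
  rcases y with ⟨i, b⟩ | A
  · rw [pair_inl]
    show _ * sv x.1 i ≤ 1
    unfold sv
    split_ifs <;> norm_num
  · rw [pair_inr]
    show _ * fn (sv A.1) (sv x.1) ≤ 1
    rw [sv_sv]
    have hd' : (0 : ℝ) < (d : ℝ) - 2 := by
      have : (3 : ℝ) ≤ d := by exact_mod_cast hd
      linarith
    rw [inv_mul_le_iff₀ hd']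
    have h := ((odd_symm A.2 x.1).2 x.2).pos
    have : (1 : ℝ) ≤ ((A.1 ∆ x.1).card : ℝ) := by exact_mod_cast h
    linarith

/-- signed unit vectors with the signs of `A` -/
def sg (A : Finset (Fin d)) (i : Fin d) : YY d := Sum.inl (i, decide (i ∉ A))

lemma hu_sg (A : Finset (Fin d)) (i : Fin d) : hu (sg A i) = Pi.single i (sv A i) := by
  unfold sg hu sv
  by_cases h : i ∈ A <;> simp [h]

lemma compat_mul {a : Fin d → ℝ} {A : Finset (Fin d)} (h : Compat a A) (i : Fin d) :
    |a i| * sv A i = a i := by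
  obtain ⟨h1, h2⟩ := h i
  unfold sv
  split_ifs with hA
  · have : a i ≤ 0 := le_of_not_gt fun h3 => h2 h3 hA
    rw [abs_of_nonpos this]; ring
  · have : 0 ≤ a i := le_of_not_gt fun h3 => hA (h1 h3)
    rw [abs_of_nonneg this]; ring

lemma compat_val {a : Fin d → ℝ} {A : Finset (Fin d)} (h : Compat a A) (D : Finset (Fin d)) :
    fn a (sv (A ∆ D)) = ∑ i, |a i| - 2 * ∑ i ∈ D, |a i| := by
  have h1 : fn a (sv (A ∆ D)) = fn (fun i => |a i|) (sv D) := by
    rw [fn_apply, fn_apply]
    refine Finset.sum_congr rfl fun i _ => ?_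
    rw [sv_symm, ← mul_assoc, ← compat_mul h i]
    rw [mul_assoc (|a i|), sv_sq, mul_one, abs_mul, abs_abs]
    have : |sv A i| = 1 := by unfold sv; split_ifs <;> norm_num
    rw [this, mul_one]
    rfl
  rw [h1, fn_sv]

lemma decomp (hd : 3 ≤ d) (a : Fin d → ℝ) : ∃ c : YY d → ℝ, (∀ y, 0 ≤ c y) ∧
    ∑ y, c y • hu y = a ∧ ∃ x, fn a (hv x) = ∑ y, c y := by
  classical
  -- general formula: coefficients `p i` on `sg A i` and `q` on `inr A`
  have gen : ∀ (A : Finset (Fin d)) (A' : {A : Finset (Fin d) // Odd A.card}) (p : Fin d → ℝ) (q : ℝ),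
      (∀ i, 0 ≤ p i) → 0 ≤ q → ∃ c : YY d → ℝ, (∀ y, 0 ≤ c y) ∧
      (∑ y, c y • hu y = fun i => p i * sv A i + q * (((d : ℝ) - 2)⁻¹ * sv A'.1 i)) ∧
      ∑ y, c y = ∑ i, p i + q := by
    intro A A' p q hp hq
    refine ⟨Sum.elim (fun ib => if ib.2 = decide (ib.1 ∉ A) then p ib.1 else 0)
      (fun B => if B = A' then q else 0), ?_, ?_, ?_⟩
    · rintro (⟨i, b⟩ | B)
      · simp only [Sum.elim_inl]; split_ifs
        · exact hp i
        · exact le_rfl
      · simp only [Sum.elim_inr]; split_ifs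
        · exact hq
        · exact le_rfl
    · have e1 : ∀ i : Fin d, ∑ b : Bool, (if b = decide (i ∉ A) then p i else 0) • hu (Sum.inl (i, b)) =
          p i • hu (sg A i) := by
        intro i
        rw [Finset.sum_eq_single (decide (i ∉ A))]
        · rw [if_pos rfl]; rfl
        · intro b _ hb; rw [if_neg hb, zero_smul]
        · intro h; exact absurd (Finset.mem_univ _) h
      have e2 : ∑ B : {A : Finset (Fin d) // Odd A.card}, (if B = A' then q else 0) • hu (Sum.inr B) =
          q • hu (Sum.inr A') := by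
        rw [Finset.sum_eq_single A']
        · rw [if_pos rfl]
        · intro b _ hb; rw [if_neg hb, zero_smul]
        · intro h; exact absurd (Finset.mem_univ _) h
      rw [Fintype.sum_sum_type, Fintype.sum_prod_type]
      simp only [Sum.elim_inl, Sum.elim_inr]
      rw [Finset.sum_congr rfl (fun i _ => e1 i), e2]
      funext i
      simp only [hu_sg, Pi.add_apply, Finset.sum_apply, Pi.smul_apply, smul_eq_mul]
      congr 1
      rw [Finset.sum_eq_single i]
      · simp
      · intro j _ hj; simp [Pi.single_apply, Ne.symm hj]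
      · intro h; exact absurd (Finset.mem_univ _) h
    · rw [Fintype.sum_sum_type, Fintype.sum_prod_type]
      simp only [Sum.elim_inl, Sum.elim_inr]
      congr 1
      · refine Finset.sum_congr rfl fun i _ => ?_
        rw [Finset.sum_eq_single (decide (i ∉ A))]
        · rw [if_pos rfl]
        · intro b _ hb; rw [if_neg hb]
        · intro h; exact absurd (Finset.mem_univ _) h
      · simp
  have hA0 : Odd ({⟨0, by omega⟩} : Finset (Fin d)).card := by simp
  by_cases he : ∃ A, Even A.card ∧ Compat a A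
  · obtain ⟨A, hA, hc⟩ := he
    obtain ⟨c, h1, h2, h3⟩ := gen A ⟨_, hA0⟩ (fun i => |a i|) 0 (fun i => abs_nonneg _) le_rfl
    refine ⟨c, h1, ?_, ⟨A, hA⟩, ?_⟩
    · rw [h2]; funext i; simp [compat_mul hc i]
    · rw [h3]
      show fn a (sv A) = _
      have h4 := compat_val hc ∅
      have h5 : A ∆ ∅ = A := symmDiff_bot A
      rw [h5] at h4
      rw [h4]; simp
  · push Not at he
    set N : Finset (Fin d) := univ.filter fun i => a i < 0 with hN
    have hcN : Compat a N := fun i => ⟨fun h => by simp [hN, h], fun h => by simp [hN, h.le]⟩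
    have hodd : Odd N.card := by
      rw [← Nat.not_even_iff_odd]
      exact fun h => he N h hcN
    haveI : Nonempty (Fin d) := ⟨⟨0, by omega⟩⟩
    obtain ⟨j, hj⟩ := Finite.exists_min (fun j => |a j|)
    obtain ⟨c, h1, h2, h3⟩ := gen N ⟨N, hodd⟩ (fun i => |a i| - |a j|) (|a j| * ((d : ℝ) - 2))
      (fun i => by have := hj i; linarith) (by
        have : (3 : ℝ) ≤ d := by exact_mod_cast hd
        exact mul_nonneg (abs_nonneg _) (by linarith))
    have hd' : ((d : ℝ) - 2) ≠ 0 := by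
      have : (3 : ℝ) ≤ d := by exact_mod_cast hd
      linarith
    refine ⟨c, h1, ?_, ⟨N ∆ {j}, even_flip hodd (by simp)⟩, ?_⟩
    · rw [h2]; funext i
      have h5 := compat_mul hcN i
      show (|a i| - |a j|) * sv N i + |a j| * ((d : ℝ) - 2) * (((d : ℝ) - 2)⁻¹ * sv N i) = a i
      have h6 : |a j| * ((d : ℝ) - 2) * (((d : ℝ) - 2)⁻¹ * sv N i) = |a j| * sv N i := by
        field_simp
      rw [h6]; linarith
    · rw [h3]
      show fn a (sv (N ∆ {j})) = _
      rw [compat_val hcN]
      simp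
      ring

end Pool.Agent.H9.SD
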