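import Mathlib
import Pool.Agent.H9.SD.HC

set_option autoImplicit false

namespace Pool.Agent.H9.SD

open Finset Pool.Agent.H9.DC
open scoped symmDiff

variable {d : ℕ}

lemma exists_notin {R : Finset (Fin d)} (h : R.card < d) : ∃ i, i ∉ R := by
  by_contra hno
  push Not at hno
  have : R = univ := Finset.eq_univ_iff_forall.2 hno
  rw [this] at h
  simp at h

lemma hdual (hd : 4 ≤ d) : ∃ (f : Set (XX d) → Set (YY d)) (g : Set (YY d) → Set (XX d)),
    f = (fun S => {y | ∀ x ∈ S, fn (hu y) (hv x) = 1}) ∧
    (∀ S, IsFace hv S → IsFace hu (f S) ∧ g (f S) = S) ∧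
    (∀ T, IsFace hu T → IsFace hv (g T) ∧ f (g T) = T) ∧
    (∀ S S', IsFace hv S → IsFace hv S' → S ⊆ S' → f S' ⊆ f S) ∧
    (∀ T T', IsFace hu T → IsFace hu T' → T ⊆ T' → g T' ⊆ g T) := by
  refine polar hv hu (le_one (by omega)) (decomp (by omega)) ?_ ?_ ?_
  · intro z hz
    obtain ⟨i, hi⟩ := Function.ne_iff.1 hz
    have hi' : z i ≠ 0 := hi
    rcases lt_or_gt_of_ne hi' with h | h
    · exact ⟨Sum.inl (i, false), by rw [pair_inl]; simp; linarith⟩
    · exact ⟨Sum.inl (i, true), by rw [pair_inl]; simp; linarith⟩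
  · rintro (⟨i, b⟩ | A)
    · cases b
      · refine ⟨⟨∅, by simp⟩, ?_⟩
        rw [Ne, tight_inl]; simp
      · obtain ⟨j, hj⟩ := exists_notin (R := {i}) (by simp; omega)
        have hij : i ≠ j := fun h => hj (by simp [h])
        refine ⟨⟨{i, j}, by rw [Finset.card_pair hij]; decide⟩, ?_⟩
        rw [Ne, tight_inl]; simp
    · obtain ⟨D, -, hD⟩ := Finset.exists_subset_card_eq (s := (univ : Finset (Fin d))) (n := 3)
        (by simp; omega)
      refine ⟨⟨A.1 ∆ D, even_flip A.2 (by rw [hD]; decide)⟩, ?_⟩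
      rw [Ne, tight_inr (by omega), symm_symm, hD]
      decide
  · intro B
    by_cases h : (⟨0, by omega⟩ : Fin d) ∈ B.1
    · exact ⟨Sum.inl (⟨0, by omega⟩, true), by rw [Ne, tight_inl]; simp [h]⟩
    · exact ⟨Sum.inl (⟨0, by omega⟩, false), by rw [Ne, tight_inl]; simp [h]⟩

/-- faces of the half cube -/
lemma hv_classify (hd : 4 ≤ d) {S : Set (XX d)} (hS : IsFace hv S) :
    S = ∅ ∨ (∃ A T : Finset (Fin d), Odd A.card ∧ T.Nonempty ∧ S = {B | B.1 ∈ simpV A T}) ∨
      (∃ A S0 : Finset (Fin d), Odd A.card ∧ 3 ≤ S0.card ∧ S = {B | B.1 ∈ demiV A S0}) := by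
  obtain ⟨l, c, hl, hS⟩ := hS
  by_cases hne : S.Nonempty
  swap
  · exact Or.inl (Set.not_nonempty_iff_eq_empty.1 hne)
  right
  obtain ⟨B0, hB0⟩ := hne
  set a : Fin d → ℝ := fun i => l (Pi.single i 1) with ha
  have hla : l = fn a := eq_fn l
  have hval : ∀ B : XX d, l (hv B) = ∑ i, a i - 2 * ∑ i ∈ B.1, a i := by
    intro B; rw [hla]; exact fn_sv a B.1
  have hB0' : l (hv B0) = c := by rw [hS] at hB0; exact hB0
  have hM : S = {B : XX d | B.1 ∈ minV a} := by
    ext B
    rw [hS]
    show l (hv B) = c ↔ _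
    constructor
    · intro h
      refine ⟨B.2, fun C hC => ?_⟩
      have h1 := hl ⟨C, hC⟩
      rw [← h, hval, hval] at h1
      simp only at h1
      linarith
    · rintro ⟨-, h⟩
      have h1 := h B0.1 B0.2
      have h2 := hl B
      rw [← hB0', hval, hval] at h2 ⊢
      linarith
  rcases classify (by omega) a with ⟨A, T, hA, hT, h⟩ | ⟨A, S0, hA, hS0, -, h⟩ | h
  · exact Or.inl ⟨A, T, hA, hT, by rw [hM, h]⟩
  · exact Or.inr ⟨A, S0, hA, hS0, by rw [hM, h]⟩
  · refine Or.inr ⟨{⟨0, by omega⟩}, univ, by simp, by simp; omega, ?_⟩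
    rw [hM]
    ext B
    constructor
    · intro _
      exact ⟨(odd_symm (by simp) B.1).2 B.2, Finset.subset_univ _⟩
    · intro _
      refine ⟨B.2, fun C _ => ?_⟩
      rw [Finset.sum_eq_zero (fun i _ => h i), Finset.sum_eq_zero (fun i _ => h i)]

/-- the neighbours of `A` and one more point -/
def ev (A R : Finset (Fin d)) (hA : Odd A.card) (hR : Odd R.card) : Option (Fin d) → XX d
  | none => ⟨A ∆ R, even_flip hA hR⟩
  | some j => ⟨A ∆ {j}, even_flip hA (by simp)⟩

lemma symm_inj {A D D' : Finset (Fin d)} (h : A ∆ D = A ∆ D') : D = D' := by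
  rw [← symm_symm A D, h, symm_symm]

lemma ev_inj {A R : Finset (Fin d)} (hA : Odd A.card) (hR : Odd R.card) (h3 : R.card = 3) :
    Function.Injective (ev A R hA hR) := by
  intro i j h
  rcases i with - | i <;> rcases j with - | j
  · rfl
  · have := symm_inj (congrArg Subtype.val h)
    rw [this] at h3; simp at h3
  · have := symm_inj (congrArg Subtype.val h)
    rw [← this] at h3; simp at h3
  · have := symm_inj (congrArg Subtype.val h)
    rw [Finset.singleton_inj] at this
    rw [this]

lemma ev_ai {A R : Finset (Fin d)} (hA : Odd A.card) (hR : Odd R.card) (h3 : R.card = 3) :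
    AffineIndependent ℝ (hv ∘ ev A R hA hR) := by
  classical
  refine ai_fun _ fun g h0 h1 => ?_
  rw [Fintype.sum_option] at h0 h1
  have key : ∀ i : Fin d, g (some i) = -(if i ∈ R then g none else 0) := by
    intro i
    have h2 := congrFun h1 i
    simp only [Pi.add_apply, Finset.sum_apply, Pi.smul_apply, smul_eq_mul, Function.comp_apply,
      Pi.zero_apply] at h2
    have e1 : hv (ev A R hA hR none) i = sv A i * (if i ∈ R then -1 else 1) := sv_symm A R i
    have e2 : ∀ j, hv (ev A R hA hR (some j)) i = sv A i * (if i = j then -1 else 1) := by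
      intro j
      have := sv_symm A {j} i
      simp only [Finset.mem_singleton] at this
      exact this
    rw [e1, Finset.sum_congr rfl (fun j _ => by rw [e2 j])] at h2
    have e3 : ∑ j, g (some j) * (sv A i * (if i = j then -1 else 1)) =
        sv A i * (∑ j, g (some j) - 2 * g (some i)) := by
      have : ∀ j, g (some j) * (sv A i * (if i = j then (-1 : ℝ) else 1)) =
          sv A i * g (some j) - (if i = j then 2 * sv A i * g (some j) else 0) := by
        intro j
        split_ifs <;> ring
      rw [Finset.sum_congr rfl (fun j _ => this j), Finset.sum_sub_distrib, ← Finset.mul_sum]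
      simp
      ring
    rw [e3] at h2
    have e4 : sv A i * (g none * (if i ∈ R then -1 else 1) + (∑ j, g (some j) - 2 * g (some i))) = 0 := by
      rw [← h2]; ring
    have e5 := (mul_eq_zero.1 e4).resolve_left (sv_ne A i)
    split_ifs at e5 ⊢ <;> linarith
  have hnone : g none = 0 := by
    have h2 : ∑ i, g (some i) = -(3 * g none) := by
      rw [Finset.sum_congr rfl (fun i _ => key i), Finset.sum_neg_distrib]
      congr 1
      rw [Finset.sum_ite_mem, Finset.univ_inter, Finset.sum_const, h3]
      simp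
    rw [h2] at h0
    linarith
  rintro (- | i)
  · exact hnone
  · rw [key i, hnone]; simp

lemma hv_ksimp (hd : 4 ≤ d) : KSimp (hv (d := d)) 3 := by
  classical
  intro S hS hk
  rcases hv_classify hd hS with rfl | ⟨A, T, hA, hT, rfl⟩ | ⟨A, S0, hA, hS0, rfl⟩
  · exact affineIndependent_of_subsingleton ℝ _
  · obtain ⟨R, -, hR⟩ := Finset.exists_subset_card_eq (s := (univ : Finset (Fin d))) (n := 3)
      (by simp; omega)
    have hRo : Odd R.card := by rw [hR]; decide
    refine ai_range _ (ev_inj hA hRo hR) (ev_ai hA hRo hR) ?_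
    rintro B ⟨j, hj, h⟩
    refine ⟨some j, Subtype.ext ?_⟩
    show A ∆ {j} = B.1
    rw [← h, symm_symm]
  · by_cases h3 : S0.card = 3
    · have hRo : Odd S0.card := by rw [h3]; decide
      refine ai_range _ (ev_inj hA hRo h3) (ev_ai hA hRo h3) ?_
      rintro B ⟨h1, h2⟩
      have hle := Finset.card_le_card h2
      have hc : (A ∆ B.1).card = 1 ∨ (A ∆ B.1).card = 3 := by
        rw [Nat.odd_iff] at h1
        omega
      rcases hc with hc | hc
      · obtain ⟨j, hj⟩ := Finset.card_eq_one.1 hc
        refine ⟨some j, Subtype.ext ?_⟩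
        show A ∆ {j} = B.1
        rw [← hj, symm_symm]
      · have heq := Finset.eq_of_subset_of_card_le h2 (by omega)
        refine ⟨none, Subtype.ext ?_⟩
        show A ∆ S0 = B.1
        rw [← heq, symm_symm]
    · exfalso
      obtain ⟨Q4, hQ4, hQ4c⟩ := Finset.exists_subset_card_eq (show 4 ≤ S0.card by omega)
      obtain ⟨t, ht⟩ : Q4.Nonempty := Finset.card_pos.1 (by omega)
      have hR : (Q4.erase t).card = 3 := by rw [Finset.card_erase_of_mem ht, hQ4c]
      have hRo : Odd (Q4.erase t).card := by rw [hR]; decide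
      have hRS : Q4.erase t ⊆ S0 := (Finset.erase_subset _ _).trans hQ4
      let e : Option {j // j ∈ Q4} → XX d := fun o => ev A (Q4.erase t) hA hRo (o.map Subtype.val)
      have hinj : Function.Injective (Option.map (Subtype.val : {j // j ∈ Q4} → Fin d)) :=
        Option.map_injective Subtype.val_injective
      have hai : AffineIndependent ℝ (hv ∘ e) :=
        (ev_ai hA hRo hR).comp_embedding ⟨_, hinj⟩
      have := finrank_ge e hai (S := {B : XX d | B.1 ∈ demiV A S0}) (by
        rintro _ ⟨o, rfl⟩
        rcases o with - | j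
        · show A ∆ (Q4.erase t) ∈ demiV A S0
          exact ⟨by rw [symm_symm]; exact hRo, by rw [symm_symm]; exact hRS⟩
        · show A ∆ {j.1} ∈ demiV A S0
          exact ⟨by rw [symm_symm]; simp, by rw [symm_symm]; simpa using hQ4 j.2⟩)
      rw [Fintype.card_option, Fintype.card_coe, hQ4c] at this
      omega

/-- a simplex in the polar -/
def eu (A : Finset (Fin d)) (hA : Odd A.card) (R : Finset (Fin d)) : Option {i // i ∉ R} → YY d
  | none => Sum.inr ⟨A, hA⟩
  | some i => sg A i.1

lemma eu_inj {A : Finset (Fin d)} (hA : Odd A.card) (R : Finset (Fin d)) :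
    Function.Injective (eu A hA R) := by
  intro i j h
  rcases i with - | i <;> rcases j with - | j
  · rfl
  · exact absurd h (by simp [eu, sg])
  · exact absurd h (by simp [eu, sg])
  · have : sg A i.1 = sg A j.1 := h
    simp only [sg, Sum.inl.injEq, Prod.mk.injEq] at this
    rw [Subtype.ext this.1]

lemma eu_ai (hd : 3 ≤ d) {A : Finset (Fin d)} (hA : Odd A.card) {R : Finset (Fin d)}
    (hR : R.Nonempty) : AffineIndependent ℝ (hu ∘ eu A hA R) := by
  classical
  refine ai_fun _ fun g h0 h1 => ?_
  rw [Fintype.sum_option] at h0 h1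
  have hd' : ((d : ℝ) - 2)⁻¹ ≠ 0 := by
    have : (3 : ℝ) ≤ d := by exact_mod_cast hd
    exact inv_ne_zero (by linarith)
  have hco : ∀ i : Fin d, g none * (((d : ℝ) - 2)⁻¹ * sv A i) +
      ∑ j : {j // j ∉ R}, g (some j) * (if i = j.1 then sv A j.1 else 0) = 0 := by
    intro i
    have h2 := congrFun h1 i
    simp only [Pi.add_apply, Finset.sum_apply, Pi.smul_apply, smul_eq_mul, Function.comp_apply,
      Pi.zero_apply] at h2
    refine Eq.trans ?_ h2
    congr 1
    refine Finset.sum_congr rfl fun j _ => ?_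
    show _ = g (some j) * hu (sg A j.1) i
    rw [hu_sg, Pi.single_apply]
  obtain ⟨r, hr⟩ := hR
  have hnone : g none = 0 := by
    have h2 := hco r
    rw [Finset.sum_eq_zero, add_zero] at h2
    · rcases mul_eq_zero.1 h2 with h | h
      · exact h
      · exact absurd h (mul_ne_zero hd' (sv_ne A r))
    · intro j _
      rw [if_neg, mul_zero]
      intro h
      exact j.2 (h ▸ hr)
  rintro (- | i)
  · exact hnone
  · have h2 := hco i.1
    rw [hnone, zero_mul, zero_add, Finset.sum_eq_single i] at h2
    · rw [if_pos rfl] at h2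
      exact (mul_eq_zero.1 h2).resolve_right (sv_ne A _)
    · intro j _ hj
      rw [if_neg, mul_zero]
      intro h
      exact hj (Subtype.ext h.symm)
    · intro h; exact absurd (Finset.mem_univ _) h

lemma tight_sg (A : Finset (Fin d)) (i : Fin d) (B : XX d) :
    fn (hu (sg A i)) (hv B) = 1 ↔ (i ∈ A ↔ i ∈ B.1) := by
  unfold sg
  rw [tight_inl]
  simp
  tauto

lemma hu_ksimp (hd : 6 ≤ d) : KSimp (hu (d := d)) 3 := by
  classical
  intro T hT hk
  obtain ⟨f, g, hf, h1, h2, h3, h4⟩ := hdual (d := d) (by omega)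
  obtain ⟨hg, hfg⟩ := h2 T hT
  -- a large face
  have big : ∀ (A R : Finset (Fin d)), Odd A.card → R.card = 2 →
      (∀ B ∈ g T, ∃ j ∈ R, A ∆ B.1 = {j}) → False := by
    intro A R hA hR hB
    have hRne : R.Nonempty := Finset.card_pos.1 (by omega)
    have := finrank_ge (eu A hA R) (eu_ai (by omega) hA hRne) (S := T) (by
      rintro _ ⟨o, rfl⟩
      rw [← hfg, hf]
      intro B hBT
      obtain ⟨j, hj, hAB⟩ := hB B hBT
      rcases o with - | i
      · show fn (hu (Sum.inr ⟨A, hA⟩)) (hv B) = 1
        rw [tight_inr (by omega), hAB]; simp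
      · show fn (hu (sg A i.1)) (hv B) = 1
        rw [tight_sg]
        have hne : i.1 ≠ j := fun h => i.2 (h ▸ hj)
        have : i.1 ∉ A ∆ B.1 := by rw [hAB]; simpa using hne
        rw [Finset.mem_symmDiff] at this
        tauto)
    have hcard : Fintype.card {i // i ∉ R} = d - 2 := by
      rw [Fintype.card_subtype_compl]
      simp [hR]
    rw [Fintype.card_option, hcard] at this
    omega
  -- a small face
  have small : ∀ (A T' : Finset (Fin d)), Odd A.card → 3 ≤ T'.card →
      (∀ j (hj : j ∈ T') (he : Even (A ∆ {j}).card), (⟨A ∆ {j}, he⟩ : XX d) ∈ g T) →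
      AffineIndependent ℝ (fun x : T => hu (x : YY d)) := by
    intro A T' hA hT' hin
    have hne : T'.Nonempty := Finset.card_pos.1 (by omega)
    refine ai_range _ (eu_inj hA T') (eu_ai (by omega) hA hne) ?_
    intro y hy
    rw [← hfg, hf] at hy
    have hy' : ∀ x ∈ g T, fn (hu y) (hv x) = 1 := hy
    rcases y with ⟨i, b⟩ | A'
    · have ht : ∀ j ∈ T', (b = true ↔ i ∉ A ∆ {j}) := by
        intro j hj
        have he : Even (A ∆ {j}).card := even_flip hA (by simp)
        exact (tight_inl i b ⟨_, he⟩).1 (hy' _ (hin j hj he))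
      have hiT : i ∉ T' := by
        intro hi
        obtain ⟨j, hj, hji⟩ := Finset.exists_mem_ne (s := T') (by omega) i
        have a1 := ht i hi
        have a2 := ht j hj
        have hji' : i ≠ j := hji.symm
        simp only [Finset.mem_symmDiff, Finset.mem_singleton, hji'] at a1 a2
        tauto
      refine ⟨some ⟨i, hiT⟩, ?_⟩
      obtain ⟨j, hj⟩ := hne
      have a1 := ht j hj
      have hij : i ≠ j := fun h => hiT (h ▸ hj)
      show Sum.inl (i, decide (i ∉ A)) = Sum.inl (i, b)
      have : decide (i ∉ A) = b := by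
        simp only [Finset.mem_symmDiff, Finset.mem_singleton, hij] at a1
        by_cases hiA : i ∈ A
        · cases b
          · simp [hiA]
          · simp [hiA] at a1
        · cases b
          · simp [hiA] at a1
          · simp [hiA]
      rw [this]
    · refine ⟨none, ?_⟩
      have ht : ∀ j ∈ T', ((A'.1 ∆ A) ∆ {j}).card = 1 := by
        intro j hj
        have he : Even (A ∆ {j}).card := even_flip hA (by simp)
        have := (tight_inr (by omega) A' ⟨_, he⟩).1 (hy' _ (hin j hj he))
        rwa [symmDiff_assoc]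
      have hK : A'.1 ∆ A = ∅ := by
        by_contra hne'
        have hsub : T' ⊆ A'.1 ∆ A := by
          intro j hj
          by_contra hjK
          have h5 := card_symm (A'.1 ∆ A) {j}
          have h6 : (A'.1 ∆ A ∩ {j}).card = 0 := by
            rw [Finset.card_eq_zero, Finset.inter_singleton_of_notMem hjK]
          have h7 := ht j hj
          rw [h6, Finset.card_singleton] at h5
          have h8 : 0 < (A'.1 ∆ A).card := Finset.card_pos.2 (Finset.nonempty_iff_ne_empty.2 hne')
          omega
        obtain ⟨j, hj⟩ := hne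
        have h5 := card_symm (A'.1 ∆ A) {j}
        have h7 := ht j hj
        have h9 : (A'.1 ∆ A ∩ {j}).card ≤ 1 := by
          refine le_trans (Finset.card_le_card Finset.inter_subset_right) (by simp)
        have h10 := Finset.card_le_card hsub
        rw [Finset.card_singleton] at h5
        omega
      have hAA : A = A'.1 := by
        rw [← Finset.bot_eq_empty, symmDiff_eq_bot] at hK
        exact hK.symm
      show Sum.inr ⟨A, hA⟩ = Sum.inr A'
      exact congrArg Sum.inr (Subtype.ext hAA)
  rcases hv_classify (by omega) hg with h | ⟨A, T', hA, hT', h⟩ | ⟨A, S0, hA, hS0, h⟩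
  · exfalso
    obtain ⟨R, -, hR⟩ := Finset.exists_subset_card_eq (s := (univ : Finset (Fin d))) (n := 2)
      (by simp; omega)
    exact big {⟨0, by omega⟩} R (by simp) hR (by rw [h]; simp)
  · by_cases h3' : 3 ≤ T'.card
    · exact small A T' hA h3' (fun j hj he => by rw [h]; exact ⟨j, hj, symm_symm _ _⟩)
    · exfalso
      obtain ⟨R, hTR, -, hR⟩ := Finset.exists_subsuperset_card_eq (Finset.subset_univ T')
        (show T'.card ≤ 2 by omega) (by simp; omega)
      refine big A R hA hR ?_
      intro B hB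
      rw [h] at hB
      obtain ⟨j, hj, hAB⟩ := hB
      exact ⟨j, hTR hj, hAB⟩
  · refine small A S0 hA hS0 (fun j hj he => ?_)
    rw [h]
    exact ⟨by rw [symm_symm]; simp, by rw [symm_symm]; simpa using hj⟩

end Pool.Agent.H9.SD
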