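import Mathlib
import Pool.Agent.H9.SD.Main

set_option autoImplicit false

namespace Pool.Agent.H9.SD

open Finset Pool.Agent.H9.DC
open scoped symmDiff

variable {d : ℕ}

lemma fn_zero_of (l : (Fin d → ℝ) →ₗ[ℝ] ℝ) (h : ∀ i, l (Pi.single i 1) = 0) : l = 0 := by
  rw [eq_fn l]
  ext i
  simp [fn_apply, h]

lemma hv_poly (hd : 4 ≤ d) : IsPoly (hv (d := d)) d := by
  classical
  refine ⟨by simp, inferInstance, fun l c h => ?_, fun B => ?_⟩
  · set a : Fin d → ℝ := fun i => l (Pi.single i 1) with ha
    have hla : l = fn a := eq_fn l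
    have h1 : ∀ B : Finset (Fin d), Even B.card → ∑ i ∈ B, a i = 0 := by
      intro B hB
      have e1 := h ⟨B, hB⟩
      have e2 := h ⟨∅, by simp⟩
      rw [hla] at e1 e2
      have e3 : fn a (sv B) = c := e1
      have e4 : fn a (sv ∅) = c := e2
      rw [fn_sv] at e3 e4
      rw [Finset.sum_empty] at e4
      linarith
    refine fn_zero_of l fun i => ?_
    obtain ⟨j, hj⟩ := exists_notin (R := {i}) (by simp; omega)
    have hij : i ≠ j := fun h => hj (by simp [h])
    obtain ⟨k, hk⟩ := exists_notin (R := {i, j}) (by rw [Finset.card_pair hij]; omega)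
    simp only [Finset.mem_insert, Finset.mem_singleton, not_or] at hk
    have b1 := h1 {i, j} (by rw [Finset.card_pair hij]; decide)
    have b2 := h1 {i, k} (by rw [Finset.card_pair (Ne.symm hk.1)]; decide)
    have b3 := h1 {j, k} (by rw [Finset.card_pair (Ne.symm hk.2)]; decide)
    rw [Finset.sum_pair hij] at b1
    rw [Finset.sum_pair (Ne.symm hk.1)] at b2
    rw [Finset.sum_pair (Ne.symm hk.2)] at b3
    show a i = 0
    linarith
  · refine ⟨fn (sv B.1), d, fun C => ?_, ?_⟩
    · show fn (sv B.1) (sv C.1) ≤ d
      rw [sv_sv]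
      have : (0 : ℝ) ≤ ((B.1 ∆ C.1).card : ℝ) := Nat.cast_nonneg _
      linarith
    · ext C
      show C = B ↔ fn (sv B.1) (sv C.1) = d
      rw [sv_sv]
      constructor
      · rintro rfl
        simp
      · intro h
        have h2 : ((B.1 ∆ C.1).card : ℝ) = 0 := by linarith
        have h3 : (B.1 ∆ C.1).card = 0 := by exact_mod_cast h2
        rw [Finset.card_eq_zero, ← Finset.bot_eq_empty, symmDiff_eq_bot] at h3
        exact Subtype.ext h3.symm

lemma hu_poly (hd : 4 ≤ d) : IsPoly (hu (d := d)) d := by
  classical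
  have hd4 : (4 : ℝ) ≤ d := by exact_mod_cast hd
  have hd' : (0 : ℝ) < (d : ℝ) - 2 := by linarith
  have hinv : ((d : ℝ) - 2)⁻¹ < 1 := inv_lt_one_of_one_lt₀ (by linarith)
  have hinv0 : (0 : ℝ) < ((d : ℝ) - 2)⁻¹ := inv_pos.2 hd'
  refine ⟨by simp, inferInstance, fun l c h => ?_, fun y => ?_⟩
  · refine fn_zero_of l fun i => ?_
    have e1 := h (Sum.inl (i, true))
    have e2 := h (Sum.inl (i, false))
    have f1 : hu (Sum.inl (i, true)) = Pi.single i (1 : ℝ) := by simp [hu]
    have f2 : hu (Sum.inl (i, false)) = -Pi.single i (1 : ℝ) := by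
      simp [hu, ← Pi.single_neg]
    rw [f1] at e1
    rw [f2, map_neg] at e2
    by_cases hA : True
    · have h3 : Odd ({i} : Finset (Fin d)).card := by simp
      have h4 : l (Pi.single i 1) = c := e1
      linarith
    · exact absurd trivial hA
  · rcases y with ⟨i, b⟩ | A
    · have hval : ∀ y, fn (Pi.single i (if b then (1 : ℝ) else -1)) (hu y) =
          (if b then 1 else -1) * hu y i := by
        intro y
        rw [fn_apply]
        simp [Pi.single_apply]
      have hlt : ∀ y, y ≠ Sum.inl (i, b) → (if b then (1 : ℝ) else -1) * hu y i < 1 := by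
        rintro (⟨j, b'⟩ | A) hy
        · have : hu (Sum.inl (j, b')) i = if i = j then (if b' then (1 : ℝ) else -1) else 0 := by
            simp [hu, Pi.single_apply]
          rw [this]
          by_cases hij : i = j
          · subst hij
            have hb : b' ≠ b := fun h => hy (by rw [h])
            cases b <;> cases b' <;> simp at hb ⊢ <;> norm_num
          · rw [if_neg hij, mul_zero]; norm_num
        · have : hu (Sum.inr A) i = ((d : ℝ) - 2)⁻¹ * sv A.1 i := rfl
          rw [this]
          unfold sv
          split_ifs <;> linarith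
      have heq : (if b then (1 : ℝ) else -1) * hu (Sum.inl (i, b)) i = 1 := by
        have : hu (Sum.inl (i, b)) i = (if b then (1 : ℝ) else -1) := by
          simp [hu]
        rw [this]
        cases b <;> simp
      refine ⟨fn (Pi.single i (if b then (1 : ℝ) else -1)), 1, fun y => ?_, ?_⟩
      · rw [hval]
        by_cases hy : y = Sum.inl (i, b)
        · rw [hy, heq]
        · exact (hlt y hy).le
      · ext y
        show y = Sum.inl (i, b) ↔ _ = (1 : ℝ)
        rw [hval]
        constructor
        · rintro rfl; exact heq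
        · intro h
          by_contra hy
          exact (hlt y hy).ne h
    · have hlt : ∀ y, y ≠ Sum.inr A → fn (sv A.1) (hu y) < ((d : ℝ) - 2)⁻¹ * d := by
        intro y hy
        rw [fn_comm]
        have h1 : (1 : ℝ) < ((d : ℝ) - 2)⁻¹ * d := by
          rw [lt_inv_mul_iff₀ hd']; linarith
        rcases y with ⟨j, b'⟩ | A'
        · rw [pair_inl]
          refine lt_of_le_of_lt ?_ h1
          unfold sv
          split_ifs <;> norm_num
        · rw [pair_inr, sv_sv]
          have hne : (A'.1 ∆ A.1).card ≠ 0 := by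
            intro h
            rw [Finset.card_eq_zero, ← Finset.bot_eq_empty, symmDiff_eq_bot] at h
            exact hy (congrArg Sum.inr (Subtype.ext h))
          have hpos : (0 : ℝ) < ((A'.1 ∆ A.1).card : ℝ) := by
            exact_mod_cast Nat.pos_of_ne_zero hne
          apply mul_lt_mul_of_pos_left _ hinv0
          linarith
      have heq : fn (sv A.1) (hu (Sum.inr A)) = ((d : ℝ) - 2)⁻¹ * d := by
        rw [fn_comm, pair_inr, sv_sv]; simp
      refine ⟨fn (sv A.1), ((d : ℝ) - 2)⁻¹ * d, fun y => ?_, ?_⟩
      · by_cases hy : y = Sum.inr A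
        · rw [hy, heq]
        · exact (hlt y hy).le
      · ext y
        show y = Sum.inr A ↔ _ = _
        constructor
        · rintro rfl; exact heq
        · intro h
          by_contra hy
          exact (hlt y hy).ne h

lemma good13 : Good 3 13 := by
  have h1 := hv_poly (d := 6) (by norm_num)
  have h2 := hu_poly (d := 6) (by norm_num)
  obtain ⟨f, g, -, a, b, c, e⟩ := hdual (d := 6) (by norm_num)
  refine ⟨XX 6 ⊕ YY 6, (Fin 6 → ℝ) × (Fin 6 → ℝ) × ℝ, inferInstance, inferInstance, inferInstance,
    join hv hu, ?_, join_selfdual ⟨f, g, a, b, c, e⟩, join_ksimp (hv_ksimp (by norm_num))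
      (hu_ksimp (by norm_num)), ?_⟩
  · exact join_poly h1 h2 ⟨⟨∅, by simp⟩⟩ ⟨Sum.inl (0, true)⟩
  · have hR : Odd ({0, 1, 2} : Finset (Fin 6)).card := by decide
    have hA : Odd ({0} : Finset (Fin 6)).card := by decide
    have c1 := Fintype.card_le_of_injective _ (ev_inj hA hR (by decide))
    have c2 : Fintype.card (Fin 6 × Bool) ≤ Fintype.card (YY 6) :=
      Fintype.card_le_of_injective _ Sum.inl_injective
    rw [Fintype.card_sum]
    simp only [Fintype.card_option, Fintype.card_fin, Fintype.card_prod, Fintype.card_bool] at c1 c2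
    omega

lemma good_all : ∀ d, 13 ≤ d → Good 3 d := by
  intro d hd
  induction d, hd using Nat.le_induction with
  | base => exact good13
  | succ n _ ih => exact good_succ ih

end Pool.Agent.H9.SD
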